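import Pool.Agent.Helper43.LZ.Wts
import Pool.Agent.Helper27.LZ.R

/-!
# Weights from the scalar inequality (SS)

`t = exp (-2 (α + i β))`, `D r = sinh (r ζ) / sinh ζ`. If `l 2 ≥ 0`, `l r < r α` and
`|D_r ^ 2 - 1| + cosh (l_r + l_{r+1} - α) < |D_r| ^ 2 cosh (α + l_{r+1} - l_r)`,
then the weights `A_r = exp (l_r + r α)`, `P_r = exp (4 α - l_r - r α) |1 - t| ^ 2` are admissible.
-/

set_option autoImplicit false

namespace Pool.Agent.Helper54.TW

open Pool.Agent.Helper43.LZ Pool.Agent.Helper87.LZ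
open Pool.Agent.Helper27.LZ (D norm_one_sub_pow norm_sinh_sq)

theorem D_mul {ζ : ℂ} (h : Complex.sinh ζ ≠ 0) (k : ℕ) :
    D ζ (k + 1) * D ζ (k + 3) = D ζ (k + 2) ^ 2 - 1 := by
  unfold D
  have e1 : ((k + 1 : ℕ) : ℂ) * ζ = ((k + 2 : ℕ) : ℂ) * ζ - ζ := by push_cast; ring
  have e2 : ((k + 3 : ℕ) : ℂ) * ζ = ((k + 2 : ℕ) : ℂ) * ζ + ζ := by push_cast; ring
  rw [e1, e2, Complex.sinh_add, Complex.sinh_sub]
  have h1 := Complex.cosh_sq ζ
  have h2 := Complex.cosh_sq (((k + 2 : ℕ) : ℂ) * ζ)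
  field_simp
  linear_combination Complex.sinh (((k + 2 : ℕ) : ℂ) * ζ) ^ 2 * h1 - Complex.sinh ζ ^ 2 * h2

theorem sinh_ne {α β : ℝ} (hα : 0 < α) : Complex.sinh ((α : ℂ) + β * Complex.I) ≠ 0 := by
  have h := norm_sinh_sq α β
  have h1 : 0 < Real.sinh α := Real.sinh_pos_iff.2 hα
  intro h0
  rw [h0, norm_zero] at h
  nlinarith [sq_nonneg (Real.sin β)]

/-- `|a_k| = 2 σ ^ k |sinh ζ| |D_k|` -/
theorem norm_a {t : ℂ} {α β : ℝ} (hα : 0 < α)
    (ht : t = Complex.exp (-2 * ((α : ℂ) + β * Complex.I))) (k : ℕ) :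
    ‖a t k‖ = 2 * Real.exp (-α) ^ k * ‖Complex.sinh ((α : ℂ) + β * Complex.I)‖
      * ‖D ((α : ℂ) + β * Complex.I) k‖ := by
  have h1 := norm_one_sub_pow ht k
  have h2 := sinh_ne (β := β) hα
  have h3 : 0 < ‖Complex.sinh ((α : ℂ) + β * Complex.I)‖ := norm_pos_iff.2 h2
  unfold a D
  rw [h1, norm_div, ← Real.exp_nat_mul]
  have e : (k : ℝ) * -α = -(k * α) := by ring
  rw [e]
  field_simp

theorem norm_t {t : ℂ} {α β : ℝ} (ht : t = Complex.exp (-2 * ((α : ℂ) + β * Complex.I))) :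
    ‖t‖ = Real.exp (-α) ^ 2 := by
  rw [ht, Complex.norm_exp, ← Real.exp_nat_mul]
  congr 1
  simp

/-- the elementary core -/
theorem core_aux {d X p b p' b' : ℝ} (hp : 1 ≤ p) (hb : 0 < b) (e1 : p * p' = 1)
    (e2 : b * b' = 1) (hX1 : d - 1 ≤ X) (hX2 : 1 - d ≤ X)
    (h : X + (b + b') / 2 < d * ((p + p') / 2)) : 0 < p * d - X - b := by
  have hp0 : 0 < p := by linarith
  have hp'0 : 0 < p' := by
    by_contra hc
    push Not at hc
    nlinarith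
  have hb'0 : 0 < b' := by
    by_contra hc
    push Not at hc
    nlinarith
  have hpp' : p' ≤ 1 := by nlinarith
  have hbb : 2 ≤ b + b' := by nlinarith [sq_nonneg (b - b')]
  have hpp : 2 ≤ p + p' := by nlinarith [sq_nonneg (p - p')]
  have h1 : b + b' - 2 ≤ d * (p + p' - 2) := by nlinarith
  have h2 : b + b' + 2 ≤ d * (p + p' + 2) := by nlinarith
  have hd : 0 ≤ d := by
    by_contra hc
    push Not at hc
    nlinarith
  have h3 : (b - b') ^ 2 ≤ (d * (p - p')) ^ 2 := by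
    have e3 : (b - b') ^ 2 = (b + b' - 2) * (b + b' + 2) := by linear_combination (-4 : ℝ) * e2
    have e4 : (d * (p - p')) ^ 2 = (d * (p + p' - 2)) * (d * (p + p' + 2)) := by
      linear_combination (-4 : ℝ) * d ^ 2 * e1
    rw [e3, e4]
    exact mul_le_mul h1 h2 (by linarith) (by nlinarith)
  have h4 : b - b' ≤ d * (p - p') :=
    (abs_le_of_sq_le_sq' h3 (mul_nonneg hd (by linarith))).2
  nlinarith

theorem core {d X p b : ℝ} (hp : 1 ≤ p) (hb : 0 < b) (hX1 : d - 1 ≤ X) (hX2 : 1 - d ≤ X)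
    (h : X + (b + 1 / b) / 2 < d * ((p + 1 / p) / 2)) : 0 < p * d - X - b := by
  have hp0 : 0 < p := by linarith
  exact core_aux hp hb (by field_simp) (by field_simp) hX1 hX2 h

/-- **The weights from (SS)** (`k + 2 = r`). -/
theorem wt_of_SS {t : ℂ} {α β : ℝ} (hα : 0 < α)
    (ht : t = Complex.exp (-2 * ((α : ℂ) + β * Complex.I))) {n : ℕ} {l : ℕ → ℝ}
    (hl2 : 0 ≤ l 2) (hmono : ∀ k, k + 3 ≤ n → l (k + 2) ≤ l (k + 3) + α)
    (hfin : ∀ k, k + 2 ≤ n → l (k + 2) < ((k : ℝ) + 2) * α)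
    (hSS : ∀ k, k + 3 ≤ n →
      ‖D ((α : ℂ) + β * Complex.I) (k + 2) ^ 2 - 1‖ + Real.cosh (l (k + 2) + l (k + 3) - α)
        < ‖D ((α : ℂ) + β * Complex.I) (k + 2)‖ ^ 2 * Real.cosh (α + l (k + 3) - l (k + 2))) :
    Wt t n (fun r => Real.exp (l r + r * α) * (‖a t (r - 1)‖ * ‖a t r‖))
      (fun r => (Real.exp (4 * α - l r - r * α) * ‖a t 1‖ ^ 2) * (‖a t r‖ / ‖a t (r - 1)‖)) := by
  have hsh := sinh_ne (β := β) hα
  have hS : 0 < ‖Complex.sinh ((α : ℂ) + β * Complex.I)‖ := norm_pos_iff.2 hsh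
  obtain ⟨S, hSd⟩ : ∃ S, S = ‖Complex.sinh ((α : ℂ) + β * Complex.I)‖ := ⟨_, rfl⟩
  have hS0 : 0 < S := by rw [hSd]; exact hS
  obtain ⟨σ, hσd⟩ : ∃ σ, σ = Real.exp (-α) := ⟨_, rfl⟩
  have hσ0 : 0 < σ := by rw [hσd]; exact Real.exp_pos _
  have hσ1 : σ < 1 := by rw [hσd]; exact Real.exp_lt_one_iff.2 (by linarith)
  have hnt : ‖t‖ = σ ^ 2 := by rw [hσd]; exact norm_t ht
  have h1 : ‖t‖ < 1 := by rw [hnt]; exact pow_lt_one₀ hσ0.le hσ1 (by norm_num)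
  have hna : ∀ k, ‖a t k‖ = 2 * σ ^ k * S * ‖D ((α : ℂ) + β * Complex.I) k‖ := by
    intro k
    rw [hσd, hSd]
    exact norm_a hα ht k
  have hc1 : ‖a t 1‖ = 2 * σ * S := by
    rw [hna, Pool.Agent.Helper27.LZ.D_one hsh]
    simp
  have hexp : ∀ r : ℕ, Real.exp (-(r * α)) = σ ^ r := by
    intro r
    rw [hσd, ← Real.exp_nat_mul]
    congr 1
    ring
  have hexp' : ∀ r : ℕ, Real.exp (r * α) = 1 / σ ^ r := by
    intro r
    rw [← hexp, one_div, ← Real.exp_neg, neg_neg]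
  have h4 : Real.exp (4 * α) = 1 / σ ^ 4 := by
    have := hexp' 4
    push_cast at this
    exact this
  have hA : ∀ r : ℕ, Real.exp (l r + r * α) = Real.exp (l r) / σ ^ r := by
    intro r
    rw [Real.exp_add, hexp']
    ring
  have hP : ∀ r : ℕ, Real.exp (4 * α - l r - r * α) = σ ^ r / (Real.exp (l r) * σ ^ 4) := by
    intro r
    have e : 4 * α - l r - r * α = 4 * α + (-(l r)) + (-(r * α)) := by ring
    rw [e, Real.exp_add, Real.exp_add, hexp, h4, Real.exp_neg]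
    field_simp
  -- the data of one step
  have data : ∀ k, k + 3 ≤ n → ∃ E E' q d X : ℝ, 0 < E ∧ 0 < E' ∧ 0 < q ∧ 0 ≤ X ∧
      E = Real.exp (l (k + 2)) ∧ E' = Real.exp (l (k + 3)) ∧ q = σ ^ (k + 2) ∧
      ‖a t (k + 2)‖ ^ 2 = 4 * q ^ 2 * S ^ 2 * d ∧
      ‖a t (k + 1)‖ * ‖a t (k + 3)‖ = 4 * q ^ 2 * S ^ 2 * X ∧
      d - 1 ≤ X ∧ 1 - d ≤ X ∧ 1 ≤ E' / (E * σ) ∧
      X + (E * E' * σ + 1 / (E * E' * σ)) / 2
        < d * ((E' / (E * σ) + 1 / (E' / (E * σ))) / 2) := by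
    intro k hk
    refine ⟨Real.exp (l (k + 2)), Real.exp (l (k + 3)), σ ^ (k + 2),
      ‖D ((α : ℂ) + β * Complex.I) (k + 2)‖ ^ 2, ‖D ((α : ℂ) + β * Complex.I) (k + 2) ^ 2 - 1‖,
      Real.exp_pos _, Real.exp_pos _, pow_pos hσ0 _, norm_nonneg _, rfl, rfl, rfl, ?_, ?_, ?_, ?_,
      ?_, ?_⟩
    · rw [hna]; ring
    · rw [hna, hna, ← D_mul hsh, norm_mul]; ring
    · have := norm_sub_norm_le (D ((α : ℂ) + β * Complex.I) (k + 2) ^ 2) 1
      rw [norm_pow, norm_one] at this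
      exact this
    · have := norm_sub_norm_le 1 (D ((α : ℂ) + β * Complex.I) (k + 2) ^ 2)
      rw [norm_pow, norm_one, norm_sub_rev] at this
      exact this
    · have h := hmono k hk
      rw [hσd, one_le_div (by positivity), ← Real.exp_add]
      exact Real.exp_le_exp.2 (by linarith)
    · have h := hSS k hk
      rw [Real.cosh_eq, Real.cosh_eq] at h
      have e1 : Real.exp (l (k + 2) + l (k + 3) - α)
          = Real.exp (l (k + 2)) * Real.exp (l (k + 3)) * σ := by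
        rw [hσd, ← Real.exp_add, ← Real.exp_add]
        congr 1
      have e2 : Real.exp (-(l (k + 2) + l (k + 3) - α))
          = 1 / (Real.exp (l (k + 2)) * Real.exp (l (k + 3)) * σ) := by
        rw [Real.exp_neg, e1, one_div]
      have e3 : Real.exp (α + l (k + 3) - l (k + 2))
          = Real.exp (l (k + 3)) / (Real.exp (l (k + 2)) * σ) := by
        rw [hσd, ← Real.exp_add, ← Real.exp_sub]
        congr 1
        ring
      have e4 : Real.exp (-(α + l (k + 3) - l (k + 2)))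
          = 1 / (Real.exp (l (k + 3)) / (Real.exp (l (k + 2)) * σ)) := by
        rw [Real.exp_neg, e3, one_div]
      rw [e1, e2, e3, e4] at h
      exact h
  refine wt_of h1 (A := fun r => Real.exp (l r + r * α))
    (P := fun r => Real.exp (4 * α - l r - r * α) * ‖a t 1‖ ^ 2) ?_ ?_ ?_ ?_ ?_
  · intro k _
    exact Real.exp_pos _
  · show Real.exp (4 * α - l 2 - (2 : ℕ) * α) * ‖a t 1‖ ^ 2
      ≤ Real.exp (l 2 + (2 : ℕ) * α) * ‖a t 1‖ ^ 2
    refine mul_le_mul_of_nonneg_right (Real.exp_le_exp.2 ?_) (by positivity)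
    push_cast
    linarith
  · intro k hk
    obtain ⟨E, E', q, d, X, hE, hE', hq, hX, eE, eE', eq', ev, euw, hX1, hX2, hp, hm⟩ := data k hk
    simp only [hA, hP]
    rw [ev, euw, hc1, hnt]
    have eq3 : σ ^ (k + 3) = q * σ := by rw [eq']; ring
    have eq1 : (σ ^ 2) ^ (k + 1) = q ^ 2 / σ ^ 2 := by
      rw [eq']
      field_simp
      ring
    rw [← eE, ← eE', ← eq', eq3, eq1]
    have key : (q / (E * σ ^ 4) * (2 * σ * S) ^ 2 *
              (E' / (q * σ) * (4 * q ^ 2 * S ^ 2 * d) - E / q * (4 * q ^ 2 * S ^ 2 * X)) +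
            q * σ / (E' * σ ^ 4) * (2 * σ * S) ^ 2 *
              (E / q * (4 * q ^ 2 * S ^ 2 * d) - E' / (q * σ) * (4 * q ^ 2 * S ^ 2 * X)))
          - (q / (E * σ ^ 4) * (2 * σ * S) ^ 2 * (q * σ / (E' * σ ^ 4) * (2 * σ * S) ^ 2) +
            E / q * (E' / (q * σ)) * (q ^ 2 / σ ^ 2 * (2 * σ * S) ^ 2) ^ 2)
        = 32 * q ^ 2 * S ^ 4 / σ ^ 2 *
          (d * ((E' / (E * σ) + 1 / (E' / (E * σ))) / 2)
            - (X + (E * E' * σ + 1 / (E * E' * σ)) / 2)) := by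
      field_simp
      ring
    have key2 : 0 ≤ 32 * q ^ 2 * S ^ 4 / σ ^ 2 *
          (d * ((E' / (E * σ) + 1 / (E' / (E * σ))) / 2)
            - (X + (E * E' * σ + 1 / (E * E' * σ)) / 2)) :=
      mul_nonneg (by positivity) (by linarith)
    linarith
  · intro k hk
    obtain ⟨E, E', q, d, X, hE, hE', hq, hX, eE, eE', eq', ev, euw, hX1, hX2, hp, hm⟩ := data k hk
    right
    simp only [hA, hP]
    rw [ev, euw, hc1, hnt]
    have eq3 : σ ^ (k + 3) = q * σ := by rw [eq']; ring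
    have eq1 : (σ ^ 2) ^ (k + 1) = q ^ 2 / σ ^ 2 := by
      rw [eq']
      field_simp
      ring
    rw [← eE, ← eE', ← eq', eq3, eq1]
    have hc := core hp (by positivity : 0 < E * E' * σ) hX1 hX2 hm
    have key : q / (E * σ ^ 4) * (2 * σ * S) ^ 2 * (4 * q ^ 2 * S ^ 2 * d)
          - q * σ / (E' * σ ^ 4) * (2 * σ * S) ^ 2 * (4 * q ^ 2 * S ^ 2 * X)
          - E / q * (q ^ 2 / σ ^ 2 * (2 * σ * S) ^ 2) ^ 2
        = 16 * q ^ 3 * S ^ 4 / (E' * σ) * (E' / (E * σ) * d - X - E * E' * σ) := by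
      field_simp
      ring
    rw [key]
    exact mul_pos (by positivity) hc
  · intro k hk
    show Real.exp (l (k + 2) + (k + 2 : ℕ) * α) * (‖t‖ ^ (k + 1)) ^ 2 * ‖a t 1‖ ^ 2
      < Real.exp (4 * α - l (k + 2) - (k + 2 : ℕ) * α) * ‖a t 1‖ ^ 2
    have hc0 : 0 < ‖a t 1‖ := by rw [hc1]; positivity
    refine mul_lt_mul_of_pos_right ?_ (by positivity)
    have e1 : (‖t‖ ^ (k + 1)) ^ 2 = Real.exp (-((4 * (k + 1) : ℕ) * α)) := by
      rw [hexp, hnt]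
      ring
    rw [e1, ← Real.exp_add]
    refine Real.exp_lt_exp.2 ?_
    have := hfin k hk
    push_cast
    linarith

/-- **No fixed vector**, from (SS). -/
theorem no_fixed_SS {t : ℂ} {α β : ℝ} (hα : 0 < α)
    (ht : t = Complex.exp (-2 * ((α : ℂ) + β * Complex.I))) {n : ℕ} {l : ℕ → ℝ}
    (hl2 : 0 ≤ l 2) (hmono : ∀ k, k + 3 ≤ n → l (k + 2) ≤ l (k + 3) + α)
    (hfin : ∀ k, k + 2 ≤ n → l (k + 2) < ((k : ℝ) + 2) * α)
    (hSS : ∀ k, k + 3 ≤ n →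
      ‖D ((α : ℂ) + β * Complex.I) (k + 2) ^ 2 - 1‖ + Real.cosh (l (k + 2) + l (k + 3) - α)
        < ‖D ((α : ℂ) + β * Complex.I) (k + 2)‖ ^ 2 * Real.cosh (α + l (k + 3) - l (k + 2)))
    (A : List ℕ) (hl : ∀ r ∈ A, r ≤ n) (hn : n ∈ A ∨ n ≤ 1) {L : ℕ → ℂ} (hL0 : L 0 = 0)
    (hLn : L n = 0) (hfix : ∀ j ≤ n, act t A L j = L j) : ∀ j ≤ n, L j = 0 := by
  have h1 : ‖t‖ < 1 := by
    rw [norm_t ht]
    exact pow_lt_one₀ (Real.exp_pos _).le (Real.exp_lt_one_iff.2 (by linarith)) (by norm_num)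
  exact no_fixed h1 (wt_of_SS hα ht hl2 hmono hfin hSS) A hl hn hL0 hLn hfix

end Pool.Agent.Helper54.TW
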