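import Pool.Agent.Helper54.TW.Table

/-!
# The path
-/

set_option autoImplicit false

namespace Pool.Agent.Helper54.TW

open Pool.Agent.Helper27.TW Finset

/-! ### the table, entry by entry -/

theorem lams_length : lams.length = 294 := by decide +kernel

theorem lm_eq {k : ℕ} (hk : k < 294) : lm k = lams[k]'(by rw [lams_length]; exact hk) := by
  unfold lm
  rw [List.getD_eq_getElem]

theorem chk_drop {k : ℕ} (hk : k ≤ 294) : chk (lams.drop k) k (Lq k) = true := by
  induction k with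
  | zero => exact chk_lams
  | succ k ih =>
    have h := ih (by omega)
    have hk' : k < lams.length := by rw [lams_length]; omega
    rw [List.drop_eq_getElem_cons hk'] at h
    unfold chk at h
    rw [Bool.and_eq_true] at h
    have h2 := h.2
    rw [← lm_eq (by omega : k < 294)] at h2
    exact h2

theorem cond_lm {k : ℕ} (hk : k < 294) : cond (Lq (k + 1)) k (lm k) = true := by
  have h := chk_drop hk.le
  have hk' : k < lams.length := by rw [lams_length]; omega
  rw [List.drop_eq_getElem_cons hk'] at h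
  unfold chk at h
  rw [Bool.and_eq_true] at h
  have h2 := h.1
  rw [← lm_eq hk] at h2
  exact h2

theorem lm_mono : ∀ i < 293, lm i ≤ lm (i + 1) := by decide +kernel
theorem lm_zero : ∀ i < 73, lm i = 0 := by decide +kernel
theorem lm_last : ∀ i < 2, lm (292 + i) = 1159 := by decide +kernel
theorem lm_le : ∀ i < 294, lm i ≤ 2000 := by decide +kernel

/-! ### hinges -/

noncomputable def hinge (c x : ℝ) : ℝ := max 0 (x - c)

theorem hinge_of_le {c x : ℝ} (h : x ≤ c) : hinge c x = 0 := max_eq_left (by linarith)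
theorem hinge_of_ge {c x : ℝ} (h : c ≤ x) : hinge c x = x - c := max_eq_right (by linarith)

theorem hinge_diff {c d x x' : ℝ} (hcd : c ≤ d) (h : x ≤ x') :
    hinge d x' - hinge d x ≤ hinge c x' - hinge c x := by
  unfold hinge
  rcases le_total (x - c) 0 with h1 | h1 <;> rcases le_total (x' - c) 0 with h2 | h2 <;>
    rcases le_total (x - d) 0 with h3 | h3 <;> rcases le_total (x' - d) 0 with h4 | h4 <;>
    simp only [max_eq_left, max_eq_right, h1, h2, h3, h4] <;> linarith

theorem hinge_mono {c x x' : ℝ} (h : x ≤ x') : 0 ≤ hinge c x' - hinge c x := by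
  unfold hinge
  rcases le_total (x - c) 0 with h1 | h1 <;> rcases le_total (x' - c) 0 with h2 | h2 <;>
    simp only [max_eq_left, max_eq_right, h1, h2] <;> linarith

theorem hinge_lip {c x x' : ℝ} (h : x ≤ x') : hinge c x' - hinge c x ≤ x' - x := by
  unfold hinge
  rcases le_total (x - c) 0 with h1 | h1 <;> rcases le_total (x' - c) 0 with h2 | h2 <;>
    simp only [max_eq_left, max_eq_right, h1, h2] <;> linarith

/-! ### the path -/

/-- the weights of the hinges -/
noncomputable def mu : ℕ → ℝ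
  | 0 => (lm 0 : ℝ) / 1000
  | i + 1 => ((lm (i + 1) : ℝ) - lm i) / 1000

theorem sum_mu (k : ℕ) : ∑ i ∈ range (k + 1), mu i = (lm k : ℝ) / 1000 := by
  induction k with
  | zero => simp [mu]
  | succ k ih =>
    rw [sum_range_succ, ih]
    unfold mu
    ring

theorem mu_nonneg {i : ℕ} (hi : i < 294) : 0 ≤ mu i := by
  match i with
  | 0 => unfold mu; positivity
  | i + 1 =>
    have h := lm_mono i (by omega)
    have h' : (lm i : ℝ) ≤ lm (i + 1) := by exact_mod_cast h
    unfold mu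
    apply div_nonneg <;> linarith

theorem mu_zero {i : ℕ} (hi : i < 73) : mu i = 0 := by
  match i with
  | 0 => unfold mu; rw [lm_zero 0 (by omega)]; simp
  | i + 1 =>
    show ((lm (i + 1) : ℝ) - lm i) / 1000 = 0
    rw [lm_zero i (by omega), lm_zero (i + 1) hi]
    simp

/-- the nodes -/
noncomputable def xr (i : ℕ) : ℝ := (66 + i) / 200

theorem xr_mono {i j : ℕ} (h : i ≤ j) : xr i ≤ xr j := by
  have h' : (i : ℝ) ≤ j := by exact_mod_cast h
  unfold xr
  linarith

theorem cast_xq (i : ℕ) : ((xq i : ℚ) : ℝ) = xr i := by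
  unfold xq xr
  push_cast
  ring

noncomputable def ll (x : ℝ) : ℝ :=
  ∑ i ∈ range 294, mu i * hinge (xr i) x - 159 / 1000 * hinge (9 / 5) x

theorem ll_sub (x x' : ℝ) : ll x' - ll x =
    ∑ i ∈ range 294, mu i * (hinge (xr i) x' - hinge (xr i) x)
      - 159 / 1000 * (hinge (9 / 5) x' - hinge (9 / 5) x) := by
  unfold ll
  simp only [mul_sub, sum_sub_distrib]
  ring

theorem total : ∑ i ∈ range 294, mu i = 1159 / 1000 := by
  have h := sum_mu 293
  rw [lm_last 1 (by omega)] at h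
  rw [h]
  norm_num

theorem xr_le {i : ℕ} (hi : i < 294) : xr i ≤ 9 / 5 := by
  have h' : (i : ℝ) ≤ 294 := by exact_mod_cast hi.le
  unfold xr
  linarith

theorem ll_lip {x x' : ℝ} (h : x ≤ x') : ll x' - ll x ≤ 1159 / 1000 * (x' - x) := by
  rw [ll_sub, ← total, sum_mul]
  have h1 := hinge_mono (c := 9 / 5) h
  have h2 : ∑ i ∈ range 294, mu i * (hinge (xr i) x' - hinge (xr i) x)
      ≤ ∑ i ∈ range 294, mu i * (x' - x) := by
    refine sum_le_sum fun i hi => ?_
    exact mul_le_mul_of_nonneg_left (hinge_lip h) (mu_nonneg (mem_range.1 hi))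
  linarith

theorem ll_mono {x x' : ℝ} (h : x ≤ x') : ll x ≤ ll x' := by
  have h0 := ll_sub x x'
  have h1 := hinge_mono (c := 9 / 5) h
  have h2 : ∑ i ∈ range 294, mu i * (hinge (9 / 5) x' - hinge (9 / 5) x)
      ≤ ∑ i ∈ range 294, mu i * (hinge (xr i) x' - hinge (xr i) x) := by
    refine sum_le_sum fun i hi => ?_
    exact mul_le_mul_of_nonneg_left (hinge_diff (xr_le (mem_range.1 hi)) h)
      (mu_nonneg (mem_range.1 hi))
  rw [← sum_mul, total] at h2
  linarith

/-- the slope from a node on -/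
theorem sum_ge {x x' : ℝ} (h : x ≤ x') {k : ℕ} (hk : k < 294) (hx : xr k ≤ x) :
    (lm k : ℝ) / 1000 * (x' - x) ≤ ∑ i ∈ range 294, mu i * (hinge (xr i) x' - hinge (xr i) x) := by
  rw [← sum_range_add_sum_Ico _ (by omega : k + 1 ≤ 294), ← sum_mu, sum_mul]
  have h1 : ∑ i ∈ range (k + 1), mu i * (x' - x)
      = ∑ i ∈ range (k + 1), mu i * (hinge (xr i) x' - hinge (xr i) x) := by
    refine sum_congr rfl fun i hi => ?_
    rw [mem_range] at hi
    have h2 : xr i ≤ x := (xr_mono (by omega)).trans hx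
    rw [hinge_of_ge h2, hinge_of_ge (h2.trans h)]
    ring
  have h3 : 0 ≤ ∑ i ∈ Ico (k + 1) 294, mu i * (hinge (xr i) x' - hinge (xr i) x) := by
    refine sum_nonneg fun i hi => ?_
    exact mul_nonneg (mu_nonneg (mem_Ico.1 hi).2) (hinge_mono h)
  linarith

theorem ll_ge {x x' : ℝ} (h : x ≤ x') (h' : x' ≤ 9 / 5) {k : ℕ} (hk : k < 294) (hx : xr k ≤ x) :
    (lm k : ℝ) / 1000 * (x' - x) ≤ ll x' - ll x := by
  rw [ll_sub, hinge_of_le h', hinge_of_le (h.trans h')]
  have := sum_ge h hk hx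
  linarith

theorem ll_node {k : ℕ} (hk : k ≤ 294) : ll (xr k) = ((Lq k : ℚ) : ℝ) := by
  induction k with
  | zero =>
    unfold ll Lq
    rw [hinge_of_le (xr_le (by norm_num))]
    have : ∑ i ∈ range 294, mu i * hinge (xr i) (xr 0) = 0 := by
      refine sum_eq_zero fun i _ => ?_
      rw [hinge_of_le (xr_mono (Nat.zero_le _))]
      ring
    rw [this]
    simp
  | succ k ih =>
    have h1 := ih (by omega)
    have h2 := ll_sub (xr k) (xr (k + 1))
    have hx' : xr (k + 1) ≤ 9 / 5 := by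
      have : ((k + 1 : ℕ) : ℝ) ≤ 294 := by exact_mod_cast hk
      unfold xr
      linarith
    rw [hinge_of_le hx', hinge_of_le ((xr_mono (Nat.le_succ k)).trans hx'),
      ← sum_range_add_sum_Ico _ (by omega : k + 1 ≤ 294)] at h2
    have h3 : ∑ i ∈ range (k + 1), mu i * (hinge (xr i) (xr (k + 1)) - hinge (xr i) (xr k))
        = ∑ i ∈ range (k + 1), mu i * (1 / 200) := by
      refine sum_congr rfl fun i hi => ?_
      rw [mem_range] at hi
      have h4 : xr i ≤ xr k := xr_mono (by omega)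
      rw [hinge_of_ge h4, hinge_of_ge (h4.trans (xr_mono (Nat.le_succ k)))]
      unfold xr
      push_cast
      ring
    have h5 : ∑ i ∈ Ico (k + 1) 294, mu i * (hinge (xr i) (xr (k + 1)) - hinge (xr i) (xr k)) = 0 := by
      refine sum_eq_zero fun i hi => ?_
      have h4 : xr (k + 1) ≤ xr i := xr_mono (mem_Ico.1 hi).1
      rw [hinge_of_le h4, hinge_of_le ((xr_mono (Nat.le_succ k)).trans h4)]
      ring
    rw [h3, h5, ← sum_mul, sum_mu] at h2
    unfold Lq
    push_cast
    linarith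

theorem ll_zero {x : ℝ} (hx : x ≤ 139 / 200) : ll x = 0 := by
  unfold ll
  rw [hinge_of_le (by linarith)]
  have : ∑ i ∈ range 294, mu i * hinge (xr i) x = 0 := by
    refine sum_eq_zero fun i _ => ?_
    rcases lt_or_ge i 73 with h | h
    · rw [mu_zero h]; ring
    · have h' : (73 : ℝ) ≤ i := by exact_mod_cast h
      rw [hinge_of_le (by unfold xr; linarith)]
      ring
  rw [this]
  ring

theorem ll_nonneg (x : ℝ) : 0 ≤ ll x := by
  rcases le_total x (139 / 200) with h | h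
  · rw [ll_zero h]
  · have := ll_mono h
    rwa [ll_zero le_rfl] at this

theorem ll_far {x : ℝ} (hx : 9 / 5 ≤ x) : ll x = ll (9 / 5) + (x - 9 / 5) := by
  have h := ll_sub (9 / 5) x
  rw [hinge_of_ge hx, hinge_of_le (le_refl (9 / 5 : ℝ))] at h
  have h3 : ∑ i ∈ range 294, mu i * (hinge (xr i) x - hinge (xr i) (9 / 5))
      = ∑ i ∈ range 294, mu i * (x - 9 / 5) := by
    refine sum_congr rfl fun i hi => ?_
    have h4 := xr_le (mem_range.1 hi)
    rw [hinge_of_ge h4, hinge_of_ge (h4.trans hx)]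
    ring
  rw [h3, ← sum_mul, total] at h
  linarith

theorem ll_lt {x : ℝ} (hx : 0 < x) : ll x < x := by
  have key : ∀ y : ℝ, 0 < y → y ≤ 9 / 5 → ll y < y := by
    intro y hy hy2
    rcases le_total y (139 / 200) with h | h
    · rw [ll_zero h]; exact hy
    · have := ll_lip h
      rw [ll_zero le_rfl] at this
      linarith
  rcases le_total x (9 / 5) with h | h
  · exact key x hx h
  · rw [ll_far h]
    have := key (9 / 5) (by norm_num) le_rfl
    linarith

/-- the interval of a point -/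
theorem exists_k {x : ℝ} (h0 : 33 / 100 ≤ x) (h1 : x ≤ 9 / 5) :
    ∃ k < 294, xr k ≤ x ∧ x ≤ xr (k + 1) := by
  rcases h1.eq_or_lt with h | h
  · refine ⟨293, by norm_num, ?_, ?_⟩
    · rw [h]; unfold xr; norm_num
    · rw [h]; unfold xr; norm_num
  · have h2 : 0 ≤ 200 * x - 66 := by linarith
    refine ⟨⌊200 * x - 66⌋₊, ?_, ?_, ?_⟩
    · rw [Nat.floor_lt h2]
      push_cast
      linarith
    · have := Nat.floor_le h2
      unfold xr
      linarith
    · have := Nat.lt_floor_add_one (200 * x - 66)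
      unfold xr
      push_cast
      linarith

theorem mid {x : ℝ} (h0 : 33 / 100 ≤ x) (h1 : x ≤ 9 / 5) : ∃ lam, 0 ≤ lam ∧ lam ≤ 2 ∧
    (∀ x', x ≤ x' → x' ≤ 9 / 5 → lam * (x' - x) ≤ ll x' - ll x) ∧
    Real.sinh (ll x + 1 / 10000) ^ 2 + Q x + 1 / 10000 ≤ (1 + lam) ^ 2 / 4 * sst x := by
  obtain ⟨k, hk, hk1, hk2⟩ := exists_k h0 h1
  have hlm : lm k ≤ 2000 := lm_le k hk
  have hlm' : (lm k : ℝ) ≤ 2000 := by exact_mod_cast hlm
  refine ⟨(lm k : ℝ) / 1000, by positivity, by linarith, fun x' hx hx' => ll_ge hx hx' hk hk1, ?_⟩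
  have hc := cond_lm hk
  unfold cond at hc
  simp only [Bool.and_eq_true, decide_eq_true_eq] at hc
  obtain ⟨⟨⟨⟨c1, c2⟩, c3⟩, c4⟩, c5⟩ := hc
  have hx0 : 0 < x := by linarith
  -- the nodes
  have n0 : 0 ≤ xq k := by unfold xq; positivity
  have n1 : xq k ≤ 9 / 5 := by
    unfold xq
    have : (k : ℚ) ≤ 294 := by exact_mod_cast hk.le
    linarith
  have n2 : 0 ≤ xq (k + 1) := by unfold xq; positivity
  have n3 : xq (k + 1) ≤ 9 / 5 := by
    unfold xq
    have : ((k + 1 : ℕ) : ℚ) ≤ 294 := by exact_mod_cast hk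
    linarith
  have s1 := le_sst_rat n0 n1
  have s2 := le_sst_rat n2 n3
  have j2 := js_sq_le_rat n2 n3
  rw [cast_xq] at s1 s2 j2
  have c1' : (0 : ℝ) < ((Sl (xq k) : ℚ) : ℝ) := by exact_mod_cast c1
  have c2' : (0 : ℝ) < ((Sl (xq (k + 1)) : ℚ) : ℝ) := by exact_mod_cast c2
  -- sst
  have hs : ((Sl (xq k) : ℚ) : ℝ) ≤ sst x := s1.trans (sst_mono (by
    rw [← cast_xq]; exact_mod_cast n0) hk1)
  -- sinh
  have hl : ll x ≤ ((Lq (k + 1) : ℚ) : ℝ) := by
    rw [← ll_node (by omega : k + 1 ≤ 294)]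
    exact ll_mono hk2
  have hsh : Real.sinh (ll x + 1 / 10000) ^ 2 ≤ ((Shu (Lq (k + 1) + 1 / 10000) ^ 2 : ℚ) : ℝ) := by
    have e1 := sinh_sq_le_rat (q := Lq (k + 1) + 1 / 10000) (by linarith) c5
    refine le_trans ?_ e1
    have e2 : 0 ≤ ll x + 1 / 10000 := by have := ll_nonneg x; linarith
    refine pow_le_pow_left₀ (Real.sinh_nonneg_iff.2 e2) (Real.sinh_le_sinh.2 ?_) 2
    push_cast
    linarith
  -- Q
  have hQ : Q x ≤ (((if k + 1 ≤ 234 then Ju (xq (k + 1)) / (16 * Sl (xq (k + 1))) else 1 : ℚ)) : ℝ) := by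
    split_ifs with h
    · have hb : xr (k + 1) ≤ 3 / 2 := by
        have : ((k + 1 : ℕ) : ℝ) ≤ 234 := by exact_mod_cast h
        unfold xr
        linarith
      refine (Q_le hx0 hk2 hb).trans ?_
      push_cast
      have hJ : 0 ≤ js (xr (k + 1)) (√3) ^ 2 := sq_nonneg _
      exact div_le_div₀ (hJ.trans j2) j2 (by positivity) (by linarith)
    · simpa using Q_le_one x
  have c3' : ((Shu (Lq (k + 1) + 1 / 10000) ^ 2 : ℚ) : ℝ)
      + (((if k + 1 ≤ 234 then Ju (xq (k + 1)) / (16 * Sl (xq (k + 1))) else 1 : ℚ)) : ℝ) + 1 / 10000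
      ≤ (1 + (lm k : ℝ) / 1000) ^ 2 / 4 * ((Sl (xq k) : ℚ) : ℝ) := by
    have := (Rat.cast_le (K := ℝ)).2 c3
    push_cast at this ⊢
    linarith
  have c6 : (1 + (lm k : ℝ) / 1000) ^ 2 / 4 * ((Sl (xq k) : ℚ) : ℝ)
      ≤ (1 + (lm k : ℝ) / 1000) ^ 2 / 4 * sst x :=
    mul_le_mul_of_nonneg_left hs (by positivity)
  linarith

/-! ### the top end -/

/-- lower bound of `sinh` -/
def Shl {K : Type} [Field K] (y : K) : K := y + y ^ 3 / 6 + y ^ 5 / 120 + y ^ 7 / 5040 + y ^ 9 / 362880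
    + y ^ 11 / 39916800 - 1 / 100000000

theorem le_sinh {y : ℝ} (h0 : 0 ≤ y) (h1 : y ≤ 18 / 5) : Shl y ≤ Real.sinh y := by
  have hz : ‖(y : ℂ)‖ ≤ 18 / 5 := by
    rw [Complex.norm_real, Real.norm_of_nonneg h0]
    linarith
  have h2 := (Complex.abs_re_le_norm _).trans (sinh_TT hz)
  rw [Complex.sub_re, TT_real, ← Complex.ofReal_sinh, Complex.ofReal_re] at h2
  have h3 := (abs_le.1 h2).1
  unfold Shl
  have p13 : 0 ≤ y ^ 13 / 6227020800 := by positivity
  have p15 : 0 ≤ y ^ 15 / 1307674368000 := by positivity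
  have p17 : 0 ≤ y ^ 17 / 355687428096000 := by positivity
  have p19 : 0 ≤ y ^ 19 / 121645100408832000 := by positivity
  have p21 : 0 ≤ y ^ 21 / 51090942171709440000 := by positivity
  linarith

theorem two_cosh_lt {y s : ℝ} (h0 : 0 ≤ y) (h1 : y ≤ 1) (hs : 0 ≤ s) (h : 4 * (1 + Shu y ^ 2) < s ^ 2) :
    2 * Real.cosh y < s := by
  have h2 := sinh_le h0 h1
  have h3 : Real.sinh y ^ 2 ≤ Shu y ^ 2 := pow_le_pow_left₀ (Real.sinh_nonneg_iff.2 h0) h2 2
  have h4 := Real.cosh_sq y
  refine lt_of_pow_lt_pow_left₀ 2 hs ?_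
  have e : (2 * Real.cosh y) ^ 2 = 4 * (1 + Real.sinh y ^ 2) := by rw [mul_pow, h4]; ring
  rw [e]
  linarith

theorem Lq_293 : Lq 293 = 184132 / 200000 := by decide +kernel
theorem Lq_294 : Lq 294 = 185291 / 200000 := by decide +kernel

theorem ll_293 : ll (359 / 200) = 184132 / 200000 := by
  have h := ll_node (k := 293) (by norm_num)
  rw [Lq_293] at h
  have e : xr 293 = 359 / 200 := by unfold xr; norm_num
  rw [e] at h
  rw [h]
  norm_num

theorem ll_294 : ll (9 / 5) = 185291 / 200000 := by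
  have h := ll_node (k := 294) (by norm_num)
  rw [Lq_294] at h
  have e : xr 294 = 9 / 5 := by unfold xr; norm_num
  rw [e] at h
  rw [h]
  norm_num

theorem top_lt {x : ℝ} (hx : 179 / 100 ≤ x) : 2 * Real.cosh (ll x + 1 / 10000) < Real.sinh x := by
  have hn := ll_nonneg x
  rcases le_total x (359 / 200) with h | h
  · have h1 : ll x ≤ 184132 / 200000 := by rw [← ll_293]; exact ll_mono h
    have h2 : Real.cosh (ll x + 1 / 10000) ≤ Real.cosh (184132 / 200000 + 1 / 10000) := by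
      rw [Real.cosh_le_cosh, abs_of_nonneg (by linarith), abs_of_nonneg (by norm_num)]
      linarith
    have h3 : Shl (179 / 100 : ℝ) ≤ Real.sinh x :=
      (le_sinh (by norm_num) (by norm_num)).trans (Real.sinh_le_sinh.2 hx)
    have h4 := two_cosh_lt (y := 184132 / 200000 + 1 / 10000) (s := Shl (179 / 100 : ℝ))
      (by norm_num) (by norm_num) (by unfold Shl; norm_num) (by unfold Shl Shu; norm_num)
    linarith
  rcases le_total x (9 / 5) with h' | h'
  · have h1 : ll x ≤ 185291 / 200000 := by rw [← ll_294]; exact ll_mono h'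
    have h2 : Real.cosh (ll x + 1 / 10000) ≤ Real.cosh (185291 / 200000 + 1 / 10000) := by
      rw [Real.cosh_le_cosh, abs_of_nonneg (by linarith), abs_of_nonneg (by norm_num)]
      linarith
    have h3 : Shl (359 / 200 : ℝ) ≤ Real.sinh x :=
      (le_sinh (by norm_num) (by norm_num)).trans (Real.sinh_le_sinh.2 h)
    have h4 := two_cosh_lt (y := 185291 / 200000 + 1 / 10000) (s := Shl (359 / 200 : ℝ))
      (by norm_num) (by norm_num) (by unfold Shl; norm_num) (by unfold Shl Shu; norm_num)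
    linarith
  · obtain ⟨t, ht⟩ : ∃ t, t = x - 9 / 5 := ⟨_, rfl⟩
    have ht0 : 0 ≤ t := by rw [ht]; linarith
    have h4 := two_cosh_lt (y := 185291 / 200000 + 1 / 10000) (s := Shl (9 / 5 : ℝ))
      (by norm_num) (by norm_num) (by unfold Shl; norm_num) (by unfold Shl Shu; norm_num)
    obtain ⟨y0, hy0⟩ : ∃ y0 : ℝ, y0 = 185291 / 200000 + 1 / 10000 := ⟨_, rfl⟩
    have e1 : ll x + 1 / 10000 = y0 + t := by
      rw [ll_far h', ll_294, ht, hy0]; ring
    have e2 : x = 9 / 5 + t := by rw [ht]; ring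
    rw [← hy0] at h4
    rw [e1, e2, Real.cosh_add, Real.sinh_add]
    have h5 : Shl (9 / 5 : ℝ) ≤ Real.sinh (9 / 5) := le_sinh (by norm_num) (by norm_num)
    have h6 : Real.sinh y0 < Real.cosh y0 := Real.sinh_lt_cosh _
    have h7 : Real.sinh (9 / 5) < Real.cosh (9 / 5) := Real.sinh_lt_cosh _
    have h8 : 0 < Real.cosh t := Real.cosh_pos t
    have h9 : 0 ≤ Real.sinh t := Real.sinh_nonneg_iff.2 ht0
    have h10 : 0 < (Real.sinh (9 / 5) - 2 * Real.cosh y0) * Real.cosh t :=
      mul_pos (by linarith) h8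
    have h11 : 0 ≤ (Real.cosh (9 / 5) - 2 * Real.sinh y0) * Real.sinh t :=
      mul_nonneg (by linarith) h9
    linarith

theorem top_ge {x x' : ℝ} (hx : 179 / 100 ≤ x) (h : x ≤ x') : x' - x ≤ ll x' - ll x := by
  have h1 := sum_ge h (k := 292) (by norm_num) (by unfold xr; norm_num; linarith)
  have h2 := hinge_lip (c := 9 / 5) h
  have e := lm_last 0 (by norm_num)
  rw [Nat.add_zero] at e
  rw [e] at h1
  rw [ll_sub]
  push_cast at h1
  linarith

/-- **leaf TW7** -/
theorem path : Pool.Agent.Helper27.TW.Path ll (1 / 10000) where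
  eps := by norm_num
  zero := fun x hx => ll_zero (by linarith)
  mono := fun _ _ h => ll_mono h
  lip := fun x x' h => (ll_lip h).trans (by linarith)
  lt := fun _ h => ll_lt h
  mid := fun _ h0 h1 => mid h0 h1
  top := fun _ hx => ⟨fun _ h => top_ge hx h, top_lt hx⟩

theorem exists_path : ∃ (l : ℝ → ℝ) (ε : ℝ), Pool.Agent.Helper27.TW.Path l ε := ⟨ll, 1 / 10000, path⟩

end Pool.Agent.Helper54.TW
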