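import Pool.Agent.Helper54.TW.Mono

/-!
# Rational enclosures of `js`, `rs`, `sst` on `[0, 9/5]` and of `sinh` on `[0, 1]`
-/

set_option autoImplicit false

namespace Pool.Agent.Helper54.TW

open Pool.Agent.Helper27.TW Finset

/-- Taylor polynomial of `sinh` -/
noncomputable def TT (z : ℂ) : ℂ := z + z ^ 3 / 6 + z ^ 5 / 120 + z ^ 7 / 5040 + z ^ 9 / 362880 + z ^ 11 / 39916800
  + z ^ 13 / 6227020800 + z ^ 15 / 1307674368000 + z ^ 17 / 355687428096000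
  + z ^ 19 / 121645100408832000 + z ^ 21 / 51090942171709440000

theorem sinh_TT {z : ℂ} (hz : ‖z‖ ≤ 18 / 5) : ‖Complex.sinh z - TT z‖ ≤ 1 / 200000000 := by
  have h1 := Complex.exp_bound' (x := z) (n := 22) (by
    push_cast
    linarith)
  have h2 := Complex.exp_bound' (x := -z) (n := 22) (by
    rw [norm_neg]
    push_cast
    linarith)
  have e : Complex.sinh z - TT z =
      ((Complex.exp z - ∑ m ∈ range 22, z ^ m / (m.factorial : ℂ))
        - (Complex.exp (-z) - ∑ m ∈ range 22, (-z) ^ m / (m.factorial : ℂ))) / 2 := by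
    unfold TT Complex.sinh
    simp only [Finset.sum_range_succ, Finset.sum_range_zero, Nat.factorial]
    push_cast
    ring
  have h3 : ‖z‖ ^ 22 / (Nat.factorial 22 : ℝ) * 2 ≤ 1 / 200000000 := by
    have h4 : ‖z‖ ^ 22 ≤ (18 / 5) ^ 22 := pow_le_pow_left₀ (norm_nonneg _) hz 22
    have h5 : (Nat.factorial 22 : ℝ) = 1124000727777607680000 := by
      norm_num [Nat.factorial]
    rw [h5]
    have h6 : ((18 : ℝ) / 5) ^ 22 / 1124000727777607680000 * 2 ≤ 1 / 200000000 := by norm_num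
    refine le_trans ?_ h6
    gcongr
  rw [norm_neg] at h2
  rw [e, norm_div]
  have h7 := norm_sub_le (Complex.exp z - ∑ m ∈ range 22, z ^ m / (m.factorial : ℂ))
    (Complex.exp (-z) - ∑ m ∈ range 22, (-z) ^ m / (m.factorial : ℂ))
  have h8 : ‖(2 : ℂ)‖ = 2 := by simp
  rw [h8, div_le_iff₀ (by norm_num)]
  linarith

/-- `1 + i √3` -/
noncomputable def lam : ℂ := ⟨1, √3⟩

theorem lam_sq : lam ^ 2 = ⟨-2, 2 * √3⟩ := by
  have := sq3
  apply Complex.ext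
  · simp [lam, sq, Complex.mul_re]
    linarith
  · simp [lam, sq, Complex.mul_im]
    ring

theorem lam_cube : lam ^ 3 = -8 := by
  have h := sq3
  rw [pow_succ, lam_sq]
  apply Complex.ext
  · simp [lam, Complex.mul_re]
    linarith
  · simp [lam, Complex.mul_im]

theorem conj_lam_mul : (starRingEnd ℂ) lam * lam = 4 := by
  have h := sq3
  apply Complex.ext
  · simp [lam, Complex.mul_re]
    linarith
  · simp [lam, Complex.mul_im]

theorem norm_lam : ‖lam‖ = 2 := by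
  have h : ‖lam‖ ^ 2 = 2 ^ 2 := by
    rw [Complex.sq_norm, Complex.normSq_apply]
    simp only [lam]
    have := sq3
    linarith
  exact (sq_eq_sq₀ (norm_nonneg _) (by norm_num)).1 h

/-- the three partial series, `b0`, `b1 = a1 / 4`, `b2 = a2 / 16` -/
def b0 {K : Type} [Field K] (x : K) : K := 1 + 64 * x ^ 6 / 5040 + 4096 * x ^ 12 / 6227020800 + 262144 * x ^ 18 / 121645100408832000
def b1 {K : Type} [Field K] (x : K) : K := x ^ 2 / 6 + 64 * x ^ 8 / 362880 + 4096 * x ^ 14 / 1307674368000 + 262144 * x ^ 20 / 51090942171709440000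
def b2 {K : Type} [Field K] (x : K) : K := x ^ 4 / 120 + 64 * x ^ 10 / 39916800 + 4096 * x ^ 16 / 355687428096000

theorem key (x : ℂ) : (starRingEnd ℂ) lam * TT (lam * x)
    = 4 * x * b0 x + 4 * x * lam ^ 2 * b1 x - 32 * x * lam * b2 x := by
  have hc := conj_lam_mul
  have h3 := lam_cube
  have p4 : lam ^ 4 = -8 * lam := by rw [pow_succ, h3]
  have p6 : lam ^ 6 = 64 := by
    have : lam ^ 6 = lam ^ 3 * lam ^ 3 := by ring
    rw [this, h3]; norm_num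
  have p8 : lam ^ 8 = 64 * lam ^ 2 := by
    have : lam ^ 8 = lam ^ 6 * lam ^ 2 := by ring
    rw [this, p6]
  have p10 : lam ^ 10 = -512 * lam := by
    have : lam ^ 10 = lam ^ 6 * lam ^ 4 := by ring
    rw [this, p6, p4]; ring
  have p12 : lam ^ 12 = 4096 := by
    have : lam ^ 12 = lam ^ 6 * lam ^ 6 := by ring
    rw [this, p6]; norm_num
  have p14 : lam ^ 14 = 4096 * lam ^ 2 := by
    have : lam ^ 14 = lam ^ 12 * lam ^ 2 := by ring
    rw [this, p12]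
  have p16 : lam ^ 16 = -32768 * lam := by
    have : lam ^ 16 = lam ^ 12 * lam ^ 4 := by ring
    rw [this, p12, p4]; ring
  have p18 : lam ^ 18 = 262144 := by
    have : lam ^ 18 = lam ^ 12 * lam ^ 6 := by ring
    rw [this, p12, p6]; norm_num
  have p20 : lam ^ 20 = 262144 * lam ^ 2 := by
    have : lam ^ 20 = lam ^ 18 * lam ^ 2 := by ring
    rw [this, p18]
  unfold TT b0 b1 b2
  linear_combination (x + lam ^ 2 * x ^ 3 / 6 + lam ^ 4 * x ^ 5 / 120 + lam ^ 6 * x ^ 7 / 5040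
    + lam ^ 8 * x ^ 9 / 362880 + lam ^ 10 * x ^ 11 / 39916800 + lam ^ 12 * x ^ 13 / 6227020800
    + lam ^ 14 * x ^ 15 / 1307674368000 + lam ^ 16 * x ^ 17 / 355687428096000
    + lam ^ 18 * x ^ 19 / 121645100408832000 + lam ^ 20 * x ^ 21 / 51090942171709440000) * hc
    + 4 * x ^ 5 / 120 * p4 + 4 * x ^ 7 / 5040 * p6 + 4 * x ^ 9 / 362880 * p8
    + 4 * x ^ 11 / 39916800 * p10 + 4 * x ^ 13 / 6227020800 * p12
    + 4 * x ^ 15 / 1307674368000 * p14 + 4 * x ^ 17 / 355687428096000 * p16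
    + 4 * x ^ 19 / 121645100408832000 * p18 + 4 * x ^ 21 / 51090942171709440000 * p20

theorem cast_b0 (x : ℝ) : b0 (x : ℂ) = ((b0 x : ℝ) : ℂ) := by unfold b0; push_cast; ring
theorem cast_b1 (x : ℝ) : b1 (x : ℂ) = ((b1 x : ℝ) : ℂ) := by unfold b1; push_cast; ring
theorem cast_b2 (x : ℝ) : b2 (x : ℂ) = ((b2 x : ℝ) : ℂ) := by unfold b2; push_cast; ring

/-- rational part of `js` -/
def jh {K : Type} [Field K] (x : K) : K := 8 * x * b1 x - 32 * x * b2 x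
def rh {K : Type} [Field K] (x : K) : K := 4 * x * b0 x - 8 * x * b1 x - 32 * x * b2 x

theorem key_re (x : ℝ) : ((starRingEnd ℂ) lam * TT (lam * x)).re = rh x := by
  rw [key, lam_sq, cast_b0, cast_b1, cast_b2]
  unfold rh
  have e : (4 * (x : ℂ) * ((b0 x : ℝ) : ℂ) + 4 * (x : ℂ) * (⟨-2, 2 * √3⟩ : ℂ) * ((b1 x : ℝ) : ℂ)
      - 32 * (x : ℂ) * lam * ((b2 x : ℝ) : ℂ))
      = ((4 * x * b0 x : ℝ) : ℂ) + ((4 * x * b1 x : ℝ) : ℂ) * (⟨-2, 2 * √3⟩ : ℂ)
        - ((32 * x * b2 x : ℝ) : ℂ) * lam := by push_cast; ring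
  rw [e, Complex.sub_re, Complex.add_re, Complex.re_ofReal_mul, Complex.re_ofReal_mul,
    Complex.ofReal_re]
  simp only [lam]
  ring

theorem key_im (x : ℝ) : ((starRingEnd ℂ) lam * TT (lam * x)).im = √3 * jh x := by
  rw [key, lam_sq, cast_b0, cast_b1, cast_b2]
  unfold jh
  have e : (4 * (x : ℂ) * ((b0 x : ℝ) : ℂ) + 4 * (x : ℂ) * (⟨-2, 2 * √3⟩ : ℂ) * ((b1 x : ℝ) : ℂ)
      - 32 * (x : ℂ) * lam * ((b2 x : ℝ) : ℂ))
      = ((4 * x * b0 x : ℝ) : ℂ) + ((4 * x * b1 x : ℝ) : ℂ) * (⟨-2, 2 * √3⟩ : ℂ)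
        - ((32 * x * b2 x : ℝ) : ℂ) * lam := by push_cast; ring
  rw [e, Complex.sub_im, Complex.add_im, Complex.im_ofReal_mul, Complex.im_ofReal_mul,
    Complex.ofReal_im]
  simp only [lam]
  ring

theorem js_rs_eq (x : ℝ) : (starRingEnd ℂ) lam * Complex.sinh (lam * x) = ⟨rs x (√3), js x (√3)⟩ := by
  have e : lam * (x : ℂ) = (x : ℂ) + ((√3 * x : ℝ) : ℂ) * Complex.I := by
    apply Complex.ext
    · simp [lam]
    · simp [lam]
  obtain ⟨h1, h2⟩ := Pool.Agent.Helper27.LZ.sinh_re_im x (√3 * x)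
  rw [e]
  apply Complex.ext
  · rw [Complex.mul_re, h1, h2]
    simp only [lam, Complex.conj_re, Complex.conj_im]
    unfold rs
    ring
  · rw [Complex.mul_im, h1, h2]
    simp only [lam, Complex.conj_re, Complex.conj_im]
    unfold js
    ring

theorem enc {x : ℝ} (h0 : 0 ≤ x) (h1 : x ≤ 9 / 5) :
    |js x (√3) - √3 * jh x| ≤ 1 / 100000000 ∧ |rs x (√3) - rh x| ≤ 1 / 100000000 := by
  have hz : ‖lam * (x : ℂ)‖ ≤ 18 / 5 := by
    rw [norm_mul, norm_lam, Complex.norm_real, Real.norm_of_nonneg h0]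
    linarith
  have h2 := sinh_TT hz
  have h3 : ‖(starRingEnd ℂ) lam * Complex.sinh (lam * x) - (starRingEnd ℂ) lam * TT (lam * x)‖
      ≤ 1 / 100000000 := by
    rw [← mul_sub, norm_mul, Complex.norm_conj, norm_lam]
    linarith
  constructor
  · have h4 := (Complex.abs_im_le_norm _).trans h3
    rw [Complex.sub_im, key_im, js_rs_eq] at h4
    exact h4
  · have h4 := (Complex.abs_re_le_norm _).trans h3
    rw [Complex.sub_re, key_re, js_rs_eq] at h4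
    exact h4

/-- upper bound of `js ^ 2` -/
def Ju {K : Type} [Field K] (x : K) : K := (1 + 1 / 100000000) * (3 * jh x ^ 2) + 2 / 100000000
/-- lower bound of `sst` -/
def Sl {K : Type} [Field K] (x : K) : K :=
  ((1 - 1 / 100000000) * (3 * jh x ^ 2 + rh x ^ 2) - 2 / 100000000) / 16

theorem sq_le_of_abs {u v : ℝ} (h : |u - v| ≤ 1 / 100000000) :
    u ^ 2 ≤ (1 + 1 / 100000000) * v ^ 2 + 2 / 100000000 := by
  obtain ⟨h1, h2⟩ := abs_le.1 h
  have e : u ^ 2 = v ^ 2 + 2 * v * (u - v) + (u - v) ^ 2 := by ring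
  have h3 : 2 * v * (u - v) ≤ (1 / 100000000) * (v ^ 2 + 1) := by
    nlinarith [sq_nonneg (v - 1), sq_nonneg (v + 1)]
  have h4 : (u - v) ^ 2 ≤ (1 / 100000000) ^ 2 := by
    rw [← sq_abs]
    exact pow_le_pow_left₀ (abs_nonneg _) h 2
  nlinarith

theorem sq_ge_of_abs {u v : ℝ} (h : |u - v| ≤ 1 / 100000000) :
    (1 - 1 / 100000000) * v ^ 2 - 1 / 100000000 ≤ u ^ 2 := by
  obtain ⟨h1, h2⟩ := abs_le.1 h
  have e : u ^ 2 = v ^ 2 + 2 * v * (u - v) + (u - v) ^ 2 := by ring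
  have h3 : -(1 / 100000000) * (v ^ 2 + 1) ≤ 2 * v * (u - v) := by
    nlinarith [sq_nonneg (v - 1), sq_nonneg (v + 1)]
  nlinarith [sq_nonneg (u - v)]

theorem js_sq_le {x : ℝ} (h0 : 0 ≤ x) (h1 : x ≤ 9 / 5) : js x (√3) ^ 2 ≤ Ju x := by
  have h := sq_le_of_abs (enc h0 h1).1
  have e : (√3 * jh x) ^ 2 = 3 * jh x ^ 2 := by
    rw [mul_pow, Real.sq_sqrt (by norm_num)]
  rw [e] at h
  exact h

theorem le_sst {x : ℝ} (h0 : 0 ≤ x) (h1 : x ≤ 9 / 5) : Sl x ≤ sst x := by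
  have ha := sq_ge_of_abs (enc h0 h1).1
  have hb := sq_ge_of_abs (enc h0 h1).2
  have e : (√3 * jh x) ^ 2 = 3 * jh x ^ 2 := by
    rw [mul_pow, Real.sq_sqrt (by norm_num)]
  rw [e] at ha
  have h := js_sq_add_rs_sq x
  unfold Sl
  linarith

theorem cast_Ju (q : ℚ) : Ju (q : ℝ) = ((Ju q : ℚ) : ℝ) := by
  unfold Ju jh b1 b2; push_cast; ring

theorem cast_Sl (q : ℚ) : Sl (q : ℝ) = ((Sl q : ℚ) : ℝ) := by
  unfold Sl jh rh b0 b1 b2; push_cast; ring

theorem js_sq_le_rat {q : ℚ} (h0 : 0 ≤ q) (h1 : q ≤ 9 / 5) : js (q : ℝ) (√3) ^ 2 ≤ ((Ju q : ℚ) : ℝ) := by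
  rw [← cast_Ju]
  exact js_sq_le (by exact_mod_cast h0) (by
    have : ((q : ℚ) : ℝ) ≤ ((9 / 5 : ℚ) : ℝ) := by exact_mod_cast h1
    simpa using this)

theorem le_sst_rat {q : ℚ} (h0 : 0 ≤ q) (h1 : q ≤ 9 / 5) : ((Sl q : ℚ) : ℝ) ≤ sst (q : ℝ) := by
  rw [← cast_Sl]
  exact le_sst (by exact_mod_cast h0) (by
    have : ((q : ℚ) : ℝ) ≤ ((9 / 5 : ℚ) : ℝ) := by exact_mod_cast h1
    simpa using this)

/-- upper bound of `sinh` on `[0, 1]` -/
def Shu {K : Type} [Field K] (y : K) : K := y + y ^ 3 / 6 + y ^ 5 / 120 + y ^ 7 / 4900 + 1 / 100000000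

theorem TT_real (y : ℝ) : (TT (y : ℂ)).re = y + y ^ 3 / 6 + y ^ 5 / 120 + y ^ 7 / 5040 + y ^ 9 / 362880
    + y ^ 11 / 39916800 + y ^ 13 / 6227020800 + y ^ 15 / 1307674368000 + y ^ 17 / 355687428096000
    + y ^ 19 / 121645100408832000 + y ^ 21 / 51090942171709440000 := by
  have e : TT (y : ℂ) = ((y + y ^ 3 / 6 + y ^ 5 / 120 + y ^ 7 / 5040 + y ^ 9 / 362880
    + y ^ 11 / 39916800 + y ^ 13 / 6227020800 + y ^ 15 / 1307674368000 + y ^ 17 / 355687428096000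
    + y ^ 19 / 121645100408832000 + y ^ 21 / 51090942171709440000 : ℝ) : ℂ) := by
    unfold TT
    push_cast
    ring
  rw [e, Complex.ofReal_re]

theorem sinh_le {y : ℝ} (h0 : 0 ≤ y) (h1 : y ≤ 1) : Real.sinh y ≤ Shu y := by
  have hz : ‖(y : ℂ)‖ ≤ 18 / 5 := by
    rw [Complex.norm_real, Real.norm_of_nonneg h0]
    linarith
  have h2 := (Complex.abs_re_le_norm _).trans (sinh_TT hz)
  rw [Complex.sub_re, TT_real, ← Complex.ofReal_sinh, Complex.ofReal_re] at h2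
  have h3 := (abs_le.1 h2).2
  unfold Shu
  have p7 : 0 ≤ y ^ 7 := by positivity
  have hp : ∀ k : ℕ, y ^ (7 + k) ≤ y ^ 7 := by
    intro k
    rw [pow_add]
    exact mul_le_of_le_one_right p7 (pow_le_one₀ h0 h1)
  have p9 := hp 2
  have p11 := hp 4
  have p13 := hp 6
  have p15 := hp 8
  have p17 := hp 10
  have p19 := hp 12
  have p21 := hp 14
  norm_num at p9 p11 p13 p15 p17 p19 p21
  linarith

theorem cast_Shu (q : ℚ) : Shu (q : ℝ) = ((Shu q : ℚ) : ℝ) := by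
  unfold Shu; push_cast; ring

theorem sinh_sq_le_rat {q : ℚ} (h0 : 0 ≤ q) (h1 : q ≤ 1) : Real.sinh (q : ℝ) ^ 2 ≤ ((Shu q ^ 2 : ℚ) : ℝ) := by
  have h2 : (0 : ℝ) ≤ (q : ℝ) := by exact_mod_cast h0
  have h3 : (q : ℝ) ≤ 1 := by exact_mod_cast h1
  have h4 := sinh_le h2 h3
  rw [cast_Shu] at h4
  push_cast
  exact pow_le_pow_left₀ (Real.sinh_nonneg_iff.2 h2) (by exact_mod_cast h4) 2

end Pool.Agent.Helper54.TW
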