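import Pool.Agent.Helper27.TW.Defs

/-!
# Monotonicity of `sst`, `js`, `Q` at `η = √3`
-/

set_option autoImplicit false

namespace Pool.Agent.Helper54.TW

open Pool.Agent.Helper27.TW Real

theorem sq3 : √3 * √3 = 3 := Real.mul_self_sqrt (by norm_num)

theorem sq3_lo : (1732 : ℝ) / 1000 ≤ √3 := by
  apply Real.le_sqrt_of_sq_le; norm_num

theorem sq3_hi : √3 ≤ (17321 : ℝ) / 10000 := by
  rw [Real.sqrt_le_left (by norm_num)]; norm_num

theorem js_sq_add_rs_sq (x : ℝ) : js x (√3) ^ 2 + rs x (√3) ^ 2 = 16 * sst x := by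
  unfold js rs sst
  have h1 := Real.sin_sq_add_cos_sq (√3 * x)
  have h2 := Real.cosh_sq x
  have h3 := sq3
  set s := Real.sin (√3 * x)
  set c := Real.cos (√3 * x)
  set S := Real.sinh x
  set C := Real.cosh x
  have e : (C * s - √3 * (S * c)) ^ 2 + (S * c + √3 * (C * s)) ^ 2
      = (1 + √3 * √3) * (C ^ 2 * s ^ 2 + S ^ 2 * c ^ 2) := by ring
  rw [e, h3]
  linear_combination (4 * S ^ 2) * h1 + 4 * s ^ 2 * h2

theorem hasDerivAt_js (x : ℝ) : HasDerivAt (fun x => js x (√3)) (4 * Real.sinh x * Real.sin (√3 * x)) x := by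
  unfold js
  have h1 : HasDerivAt (fun x : ℝ => √3 * x) (√3) x := by
    simpa using (hasDerivAt_id x).const_mul (√3)
  have h2 := (Real.hasDerivAt_cosh x).mul h1.sin
  have h3 := ((Real.hasDerivAt_sinh x).mul h1.cos).const_mul (√3)
  refine (h2.sub h3).congr_deriv ?_
  have := sq3
  linear_combination (Real.sinh x * Real.sin (√3 * x)) * this

theorem hasDerivAt_rs (x : ℝ) : HasDerivAt (fun x => rs x (√3)) (4 * Real.cosh x * Real.cos (√3 * x)) x := by
  unfold rs
  have h1 : HasDerivAt (fun x : ℝ => √3 * x) (√3) x := by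
    simpa using (hasDerivAt_id x).const_mul (√3)
  have h2 := (Real.hasDerivAt_sinh x).mul h1.cos
  have h3 := ((Real.hasDerivAt_cosh x).mul h1.sin).const_mul (√3)
  refine (h2.add h3).congr_deriv ?_
  have := sq3
  linear_combination (Real.cosh x * Real.cos (√3 * x)) * this

theorem hasDerivAt_sst (x : ℝ) :
    HasDerivAt sst ((Real.sinh (2 * x) + √3 * Real.sin (2 * (√3 * x))) / 4) x := by
  have h1 : HasDerivAt (fun x : ℝ => √3 * x) (√3) x := by
    simpa using (hasDerivAt_id x).const_mul (√3)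
  have h2 := ((Real.hasDerivAt_sinh x).pow 2)
  have h3 := (h1.sin.pow 2)
  have h4 := (h2.add h3).div_const 4
  refine h4.congr_deriv ?_
  rw [Real.sinh_two_mul, Real.sin_two_mul]
  simp
  ring

theorem pi_bound {x : ℝ} (h : x ≤ 9 / 5) (h0 : 0 ≤ x) : √3 * x ≤ Real.pi := by
  have h1 := sq3_hi
  have h2 := Real.pi_gt_d2
  nlinarith

/-- `sst` is monotone on `[0, ∞)` -/
theorem sst_mono {x y : ℝ} (hx : 0 ≤ x) (hxy : x ≤ y) : sst x ≤ sst y := by
  have hm : MonotoneOn sst (Set.Ici 0) := by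
    refine monotoneOn_of_deriv_nonneg (convex_Ici 0)
      (fun z _ => (hasDerivAt_sst z).continuousAt.continuousWithinAt)
      (fun z _ => (hasDerivAt_sst z).differentiableAt.differentiableWithinAt) ?_
    intro z hz
    rw [interior_Ici] at hz
    have hz0 : (0 : ℝ) < z := hz
    rw [(hasDerivAt_sst z).deriv]
    have h3 := Real.sqrt_nonneg 3
    have hlo := sq3_lo
    have hhi := sq3_hi
    refine div_nonneg ?_ (by norm_num)
    rcases le_total z (9 / 10) with h | h
    · have h5 : 0 ≤ Real.sin (2 * (√3 * z)) := by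
        apply Real.sin_nonneg_of_nonneg_of_le_pi (by positivity)
        have := Real.pi_gt_d2
        nlinarith
      have h6 : 0 ≤ Real.sinh (2 * z) := Real.sinh_nonneg_iff.2 (by positivity)
      positivity
    · have h5 : -1 ≤ Real.sin (2 * (√3 * z)) := Real.neg_one_le_sin _
      have h6 : 2 * z ≤ Real.sinh (2 * z) := Real.self_le_sinh_iff.2 (by positivity)
      nlinarith
  exact hm hx (le_trans hx hxy) hxy

theorem js_mono {x y : ℝ} (hx : 0 ≤ x) (hxy : x ≤ y) (hy : y ≤ 9 / 5) : js x (√3) ≤ js y (√3) := by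
  have hm : MonotoneOn (fun x => js x (√3)) (Set.Icc 0 (9 / 5)) := by
    refine monotoneOn_of_deriv_nonneg (convex_Icc _ _)
      (fun z _ => (hasDerivAt_js z).continuousAt.continuousWithinAt)
      (fun z _ => (hasDerivAt_js z).differentiableAt.differentiableWithinAt) ?_
    intro z hz
    rw [interior_Icc] at hz
    rw [(hasDerivAt_js z).deriv]
    have h6 : 0 ≤ Real.sinh z := Real.sinh_nonneg_iff.2 hz.1.le
    have h5 : 0 ≤ Real.sin (√3 * z) := by
      apply Real.sin_nonneg_of_nonneg_of_le_pi (mul_nonneg (Real.sqrt_nonneg _) hz.1.le)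
      exact pi_bound hz.2.le hz.1.le
    positivity
  exact hm ⟨hx, hxy.trans hy⟩ ⟨hx.trans hxy, hy⟩ hxy

theorem js_zero : js 0 (√3) = 0 := by
  unfold js; simp

theorem js_nonneg {x : ℝ} (hx : 0 ≤ x) (hy : x ≤ 9 / 5) : 0 ≤ js x (√3) := by
  have := js_mono le_rfl hx hy
  rwa [js_zero] at this

theorem cos_add_pos {θ : ℝ} (h0 : 0 ≤ θ) (h1 : θ < 5 * Real.pi / 6) :
    0 < Real.cos θ + √3 * Real.sin θ := by
  have h2 : 0 < Real.sin (θ + Real.pi / 6) :=
    Real.sin_pos_of_pos_of_lt_pi (by have := Real.pi_pos; linarith) (by linarith)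
  rw [Real.sin_add, Real.cos_pi_div_six, Real.sin_pi_div_six] at h2
  nlinarith

theorem theta_bound {x : ℝ} (h : x ≤ 3 / 2) (h0 : 0 ≤ x) : √3 * x < 5 * Real.pi / 6 := by
  have h1 := sq3_hi
  have h2 := Real.pi_gt_d2
  nlinarith

theorem rs_pos {x : ℝ} (hx : 0 < x) (hy : x ≤ 3 / 2) : 0 < rs x (√3) := by
  unfold rs
  have h1 := cos_add_pos (mul_nonneg (Real.sqrt_nonneg 3) hx.le) (theta_bound hy hx.le)
  have h2 : 0 < Real.sinh x := Real.sinh_pos_iff.2 hx
  have h3 : Real.sinh x < Real.cosh x := Real.sinh_lt_cosh x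
  have h4 : 0 ≤ Real.sin (√3 * x) := by
    apply Real.sin_nonneg_of_nonneg_of_le_pi (mul_nonneg (Real.sqrt_nonneg _) hx.le)
    exact pi_bound (hy.trans (by norm_num)) hx.le
  have h5 : 0 ≤ √3 * Real.sin (√3 * x) := by positivity
  nlinarith [mul_pos h2 h1, mul_nonneg h5 (sub_nonneg.2 h3.le)]

theorem rs_nonneg {x : ℝ} (hx : 0 ≤ x) (hy : x ≤ 3 / 2) : 0 ≤ rs x (√3) := by
  rcases hx.eq_or_lt with h | h
  · rw [← h]
    unfold rs
    simp
  · exact (rs_pos h hy).le

theorem quot_mono {x y : ℝ} (hx : 0 < x) (hxy : x ≤ y) (hy : y ≤ 3 / 2) :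
    js x (√3) * rs y (√3) ≤ js y (√3) * rs x (√3) := by
  have hd : ∀ z ∈ Set.Ioc (0 : ℝ) (3 / 2), HasDerivAt (fun z => js z (√3) / rs z (√3))
      ((4 * Real.sinh z * Real.sin (√3 * z) * rs z (√3)
        - js z (√3) * (4 * Real.cosh z * Real.cos (√3 * z))) / rs z (√3) ^ 2) z := by
    intro z hz
    exact (hasDerivAt_js z).div (hasDerivAt_rs z) (rs_pos hz.1 hz.2).ne'
  have hm : MonotoneOn (fun z => js z (√3) / rs z (√3)) (Set.Ioc 0 (3 / 2)) := by
    refine monotoneOn_of_deriv_nonneg (convex_Ioc _ _)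
      (fun z hz => (hd z hz).continuousAt.continuousWithinAt) ?_ ?_
    · intro z hz
      rw [interior_Ioc] at hz
      exact (hd z ⟨hz.1, hz.2.le⟩).differentiableAt.differentiableWithinAt
    · intro z hz
      rw [interior_Ioc] at hz
      rw [(hd z ⟨hz.1, hz.2.le⟩).deriv]
      refine div_nonneg ?_ (sq_nonneg _)
      unfold js rs
      have h1 := Real.sin_sq_add_cos_sq (√3 * z)
      have h2 := Real.cosh_sq z
      have h3 : z ≤ Real.sinh z := Real.self_le_sinh_iff.2 hz.1.le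
      have h4 : 1 ≤ Real.cosh z := Real.one_le_cosh z
      have h5 : Real.sin (2 * (√3 * z)) ≤ 2 * (√3 * z) := by
        apply Real.sin_le
        have := Real.sqrt_nonneg 3
        have := hz.1.le
        positivity
      rw [Real.sin_two_mul] at h5
      have h6 : √3 * z ≤ √3 * (Real.sinh z * Real.cosh z) := by
        apply mul_le_mul_of_nonneg_left _ (Real.sqrt_nonneg _)
        have := hz.1.le
        nlinarith
      set s := Real.sin (√3 * z)
      set c := Real.cos (√3 * z)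
      set S := Real.sinh z
      set C := Real.cosh z
      have e : 4 * S * s * (S * c + √3 * (C * s)) - (C * s - √3 * (S * c)) * (4 * C * c)
          = 4 * (√3 * (S * C) * (s ^ 2 + c ^ 2) - s * c * (C ^ 2 - S ^ 2)) := by ring
      rw [e, h1, h2]
      nlinarith
  have hx0 := rs_pos hx (hxy.trans hy)
  have hy0 := rs_pos (hx.trans_le hxy) hy
  have h := hm ⟨hx, hxy.trans hy⟩ ⟨hx.trans_le hxy, hy⟩ hxy
  simp only at h
  rwa [div_le_div_iff₀ hx0 hy0] at h

theorem sst_pos {x : ℝ} (hx : 0 < x) : 0 < sst x := by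
  unfold sst
  have h2 : 0 < Real.sinh x := Real.sinh_pos_iff.2 hx
  positivity

theorem Q_le {x y : ℝ} (hx : 0 < x) (hxy : x ≤ y) (hy : y ≤ 3 / 2) :
    Q x ≤ js y (√3) ^ 2 / (16 * sst y) := by
  unfold Q
  rw [if_pos (rs_nonneg hx.le (hxy.trans hy))]
  have hx0 := rs_pos hx (hxy.trans hy)
  have hy0 := rs_pos (hx.trans_le hxy) hy
  have hjx := js_nonneg hx.le ((hxy.trans hy).trans (by norm_num))
  have hjy := js_nonneg (hx.le.trans hxy) (hy.trans (by norm_num))
  rw [← js_sq_add_rs_sq, div_le_div_iff₀ (by positivity) (by positivity)]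
  have h := quot_mono hx hxy hy
  have h2 : (js x (√3) * rs y (√3)) ^ 2 ≤ (js y (√3) * rs x (√3)) ^ 2 :=
    pow_le_pow_left₀ (by positivity) h 2
  nlinarith

theorem Q_le_one (x : ℝ) : Q x ≤ 1 := by
  unfold Q
  split_ifs with h
  · refine div_le_one_of_le₀ ?_ (by positivity)
    nlinarith [sq_nonneg (rs x (√3))]
  · exact le_rfl

theorem Q_nonneg (x : ℝ) : 0 ≤ Q x := by
  unfold Q
  split_ifs with h
  · positivity
  · norm_num

end Pool.Agent.Helper54.TW
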