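import Pool.Agent.Helper54.TW.Enc

/-!
# The table

Nodes `x_i = 33/100 + i/200`, `i ≤ 294`, slopes `lm i / 1000`.
-/

set_option autoImplicit false

namespace Pool.Agent.Helper54.TW

open Pool.Agent.Helper27.TW

/-- the slopes, in thousandths -/
def lams : List ℕ := [
  0, 0, 0, 0, 0, 0, 0, 0, 0, 0, 0, 0, 0, 0, 0, 0, 0, 0, 0, 0, 0, 0, 0, 0,
  0, 0, 0, 0, 0, 0, 0, 0, 0, 0, 0, 0, 0, 0, 0, 0, 0, 0, 0, 0, 0, 0, 0, 0,
  0, 0, 0, 0, 0, 0, 0, 0, 0, 0, 0, 0, 0, 0, 0, 0, 0, 0, 0, 0, 0, 0, 0, 0,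
  0, 0, 0, 9, 18, 27, 37, 46, 56, 65, 75, 84, 94, 104, 113, 123, 133, 142, 152, 162, 172, 182, 192, 202,
  212, 222, 232, 242, 252, 262, 272, 282, 292, 302, 313, 323, 333, 343, 354, 364, 374, 385, 395, 406, 416, 426, 437, 447,
  458, 468, 478, 489, 499, 510, 520, 531, 541, 552, 562, 572, 583, 593, 603, 614, 624, 634, 645, 655, 665, 675, 685, 696,
  706, 716, 726, 736, 745, 755, 765, 775, 784, 794, 803, 813, 822, 831, 841, 850, 859, 868, 877, 885, 894, 903, 911, 920,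
  928, 936, 944, 952, 960, 968, 975, 983, 990, 997, 1004, 1011, 1018, 1025, 1031, 1038, 1044, 1050, 1056, 1062, 1067, 1073, 1078, 1083,
  1088, 1093, 1098, 1102, 1107, 1111, 1115, 1119, 1122, 1126, 1129, 1132, 1135, 1138, 1141, 1143, 1146, 1148, 1150, 1151, 1153, 1154, 1156, 1157,
  1157, 1158, 1159, 1159, 1159, 1159, 1159, 1159, 1159, 1159, 1159, 1159, 1159, 1159, 1159, 1159, 1159, 1159, 1159, 1159, 1159, 1159, 1159, 1159,
  1159, 1159, 1159, 1159, 1159, 1159, 1159, 1159, 1159, 1159, 1159, 1159, 1159, 1159, 1159, 1159, 1159, 1159, 1159, 1159, 1159, 1159, 1159, 1159,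
  1159, 1159, 1159, 1159, 1159, 1159, 1159, 1159, 1159, 1159, 1159, 1159, 1159, 1159, 1159, 1159, 1159, 1159, 1159, 1159, 1159, 1159, 1159, 1159,
  1159, 1159, 1159, 1159, 1159, 1159]

def lm (i : ℕ) : ℕ := lams.getD i 1159

/-- the nodes -/
def xq (i : ℕ) : ℚ := (66 + i) / 200

/-- the values -/
def Lq : ℕ → ℚ
  | 0 => 0
  | k + 1 => Lq k + lm k / 200000

/-- one step of the table -/
def cond (l : ℚ) (i : ℕ) (m : ℕ) : Bool :=
  decide (0 < Sl (xq i)) && decide (0 < Sl (xq (i + 1))) &&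
  decide (Shu (l + 1 / 10000) ^ 2 + (if i + 1 ≤ 234 then Ju (xq (i + 1)) / (16 * Sl (xq (i + 1))) else 1) + 1 / 10000
    ≤ (1 + m / 1000) ^ 2 / 4 * Sl (xq i)) && decide (0 ≤ l) && decide (l + 1 / 10000 ≤ 1)

def chk : List ℕ → ℕ → ℚ → Bool
  | [], _, _ => true
  | m :: t, i, l => cond (l + m / 200000) i m && chk t (i + 1) (l + m / 200000)

theorem chk_lams : chk lams 0 0 = true := by decide +kernel

end Pool.Agent.Helper54.TW
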